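import Pool.Agent.H438R2.RZ.Core

/-!
# The Bochner-Riesz conjecture for block radial functions

Let `n = k + m ≥ 3`, `x = (x', x'') ∈ ℝ^k × ℝ^m`. A function on `ℝ^n` is called block radial if it
depends only on `|x'|` and `|x''|` (for `m = 1` on `|x'|` and on the real number `x''`; no symmetry
in `x''` is assumed). The Bochner-Riesz means of order `δ > 0` satisfy
`‖S^δ f‖_p ≤ C ‖f‖_p` for all block radial Schwartz functions `f`, for every `1 < p < ∞` and every
`δ > n |1/2 - 1/p| - 1/2`, the full conjectured range.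

The proof is in `Pool/Agent/H438R2/RZ/` (starting files of this pool, not handed in before).
-/

set_option autoImplicit false

namespace Pool.Agent.Results.MP_b7167f_an.BochnerRieszBlockRadial

open MeasureTheory Complex
open scoped RealInnerProductSpace FourierTransform

/-- `f` is block radial on `ℝ^(k+m)`: it takes the same value at any two points `x`, `y` whose first
`k` coordinates have the same Euclidean norm and whose last `m` coordinates have the same Euclidean
norm; for `m = 1` this is required only for points with the same last coordinate. -/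
def BlockRadial (k m : ℕ) (f : EuclideanSpace ℝ (Fin (k + m)) → ℂ) : Prop :=
  ∀ x y : EuclideanSpace ℝ (Fin (k + m)),
    ∑ i : Fin k, (x (Fin.castAdd m i)) ^ 2 = ∑ i : Fin k, (y (Fin.castAdd m i)) ^ 2 →
    ∑ i : Fin m, (x (Fin.natAdd k i)) ^ 2 = ∑ i : Fin m, (y (Fin.natAdd k i)) ^ 2 →
    (m = 1 → ∀ i : Fin m, x (Fin.natAdd k i) = y (Fin.natAdd k i)) → f x = f y

/-- The Bochner-Riesz mean of order `δ`:
`S^δ f (x) = ∫ (1 - |ξ|²)_+^δ (𝓕 f)(ξ) e^(2πi⟨x,ξ⟩) dξ`. -/
noncomputable def bochnerRiesz {n : ℕ} (δ : ℝ) (f : EuclideanSpace ℝ (Fin n) → ℂ)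
    (x : EuclideanSpace ℝ (Fin n)) : ℂ :=
  ∫ ξ : EuclideanSpace ℝ (Fin n), (((max (1 - ‖ξ‖ ^ 2) 0) ^ δ : ℝ) : ℂ) * 𝓕 f ξ *
    Complex.exp (2 * Real.pi * (⟪x, ξ⟫ : ℝ) * I)

/-- **The Bochner-Riesz conjecture for block radial functions.** -/
theorem result (k m : ℕ) (hk : 1 ≤ k) (hm : 1 ≤ m) (hkm : 3 ≤ k + m) (p δ : ℝ) (hp : 1 < p)
    (hδ : 0 < δ) (hδ' : ((k + m : ℕ) : ℝ) * |1 / 2 - 1 / p| - 1 / 2 < δ) :
    ∃ C : ℝ, ∀ f : SchwartzMap (EuclideanSpace ℝ (Fin (k + m))) ℂ, BlockRadial k m (fun x => f x) →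
      eLpNorm (bochnerRiesz δ (fun x => f x)) (ENNReal.ofReal p) volume ≤
        ENNReal.ofReal C * eLpNorm (fun x => f x) (ENNReal.ofReal p) volume := by
  obtain ⟨C, hC⟩ := Pool.Agent.H438R2.RZ.CoreAux.main k m hk hm hkm p δ hp hδ hδ'
  refine ⟨C, fun f hf => ?_⟩
  have h := hC f hf
  have e : (fun x : EuclideanSpace ℝ (Fin (k + m)) => ∫ ξ : EuclideanSpace ℝ (Fin (k + m)),
      (((max (1 - ‖ξ‖ ^ 2) 0) ^ δ : ℝ) : ℂ) * Pool.Agent.H438R2.RZ.CoreAux.fh (fun x => f x) ξ *
        Pool.Agent.H438R2.RZ.e (⟪x, ξ⟫ : ℝ)) = bochnerRiesz δ (fun x => f x) := by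
    funext x
    unfold bochnerRiesz
    refine integral_congr_ae (Filter.Eventually.of_forall fun ξ => ?_)
    have h1 : Pool.Agent.H438R2.RZ.CoreAux.fh (fun x => f x) ξ = 𝓕 (fun x => f x) ξ := by
      unfold Pool.Agent.H438R2.RZ.CoreAux.fh
      rw [Real.fourier_eq']
      refine integral_congr_ae (Filter.Eventually.of_forall fun y => ?_)
      simp only [Pool.Agent.H438R2.RZ.e, smul_eq_mul]
      congr 2
      push_cast
      ring
    have h2 : Pool.Agent.H438R2.RZ.e (⟪x, ξ⟫ : ℝ) =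
        Complex.exp (2 * Real.pi * (⟪x, ξ⟫ : ℝ) * I) := by
      simp only [Pool.Agent.H438R2.RZ.e]
      congr 1
      push_cast
      ring
    simp only [h1, h2]
  rw [e] at h
  exact h

end Pool.Agent.Results.MP_b7167f_an.BochnerRieszBlockRadial
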