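import Mathlib
import Pool.Agent.R245.PC.C10
set_option autoImplicit false

/-!
# The restriction conjecture in `ℝ^4` for functions regular along the half-lines from an axis

Let `d = 4` and let `ℓ` be any line in the frequency space `ℝ^3` (through the point `c`, with unit
direction `e`). Through every frequency `ξ` off the line runs exactly one half-line which starts on
`ℓ` and is orthogonal to `ℓ`. The theorem is the extension estimate for the paraboloid in the full
conjectured range `q > 2d/(d-1) = 8/3` for functions which are of bounded variation along each of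
these half-lines. Nothing at all is assumed about the dependence of the function on the other two
variables (the position on the axis and the angle around it).
-/

namespace Pool.Agent.Results.MP_b7167f_an.CylinderRays

open MeasureTheory Set Complex
open scoped ENNReal RealInnerProductSpace

/-- The extension operator of the paraboloid in `ℝ^4`:
`Ef(x,t) = ∫ f(ξ) exp(2πi(ξ·x + |ξ|² t)) dξ` (functions on `[-1,1]^3` are extended by zero). -/
noncomputable def ext (f : EuclideanSpace ℝ (Fin 3) → ℂ) (z : EuclideanSpace ℝ (Fin 3) × ℝ) : ℂ :=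
  ∫ ξ, f ξ * cexp (2 * Real.pi * I * ((⟪ξ, z.1⟫ + ‖ξ‖ ^ 2 * z.2 : ℝ) : ℂ))

/-- The foot of the perpendicular from `ξ` to the line `c + ℝ e` (with `‖e‖ = 1`). -/
noncomputable def foot (c e ξ : EuclideanSpace ℝ (Fin 3)) : EuclideanSpace ℝ (Fin 3) :=
  c + ⟪ξ - c, e⟫ • e

/-- The part beyond `ξ` of the half-line from the foot of `ξ` through `ξ` is `ray c e ξ s`,
`s ≥ 1`. -/
noncomputable def ray (c e ξ : EuclideanSpace ℝ (Fin 3)) (s : ℝ) : EuclideanSpace ℝ (Fin 3) :=
  foot c e ξ + s • (ξ - foot c e ξ)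

lemma ext_eq (f : EuclideanSpace ℝ (Fin 3) → ℂ) : ext f = Pool.Agent.R245.PC.ET f := by
  ext z
  unfold ext Pool.Agent.R245.PC.ET Pool.Agent.R245.PB.ec
  congr 1
  ext ξ
  congr 2
  push_cast
  ring

/-- **The extension inequality in `ℝ^4` for functions of bounded variation along the half-lines
issuing orthogonally from a line.** -/
theorem result (q : ℝ) (hq : 8 / 3 < q) :
    ∃ C : ℝ, 0 < C ∧
      (q < 10 / 3 → ∀ (c e : EuclideanSpace ℝ (Fin 3)), ‖e‖ = 1 →
        ∀ (R : ℝ) (f : EuclideanSpace ℝ (Fin 3) → ℂ) (v : EuclideanSpace ℝ (Fin 3) → ℝ≥0∞),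
        0 < R → Measurable f → Measurable v → (∀ ξ, R < ‖ξ - c‖ → f ξ = 0) →
        (∀ ξ, eVariationOn (fun s : ℝ => f (ray c e ξ s)) (Ici 1) ≤ v ξ) →
        ∫⁻ z, ‖ext f z‖ₑ ^ q ≤ ENNReal.ofReal (C * R ^ (3 * q - 8)) * ∫⁻ ξ, v ξ ^ q) ∧
      (q < 10 / 3 → ∀ (c e : EuclideanSpace ℝ (Fin 3)), ‖e‖ = 1 →
        ∀ (R : ℝ) (f : EuclideanSpace ℝ (Fin 3) → ℝ), 0 < R → Measurable f → (∀ ξ, 0 ≤ f ξ) →
        (∀ ξ, R < ‖ξ - c‖ → f ξ = 0) → (∀ ξ, ∀ s : ℝ, 1 ≤ s → f (ray c e ξ s) ≤ f ξ) →
        ∫⁻ z, ‖ext (fun ξ => (f ξ : ℂ)) z‖ₑ ^ q ≤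
          ENNReal.ofReal (C * R ^ (3 * q - 8)) * ∫⁻ ξ, ‖f ξ‖ₑ ^ q) ∧
      (∀ (c e : EuclideanSpace ℝ (Fin 3)), ‖e‖ = 1 →
        ∀ (R V : ℝ) (f : EuclideanSpace ℝ (Fin 3) → ℂ), 0 < R → 0 ≤ V → Measurable f →
        (∀ ξ, R < ‖ξ - c‖ → f ξ = 0) →
        (∀ ξ, eVariationOn (fun s : ℝ => f (ray c e ξ s)) (Ici 1) ≤ ENNReal.ofReal V) →
        ∫⁻ z, ‖ext f z‖ₑ ^ q ≤ ENNReal.ofReal (C * R ^ (3 * q - 5) * V ^ q)) := by
  obtain ⟨C1, hC1, h1⟩ := Pool.Agent.R245.PC.mainB hq
  by_cases hq' : q < 10 / 3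
  · obtain ⟨C2, hC2, h2⟩ := Pool.Agent.R245.PC.mainAx hq hq'
    have key : ∀ (c e : EuclideanSpace ℝ (Fin 3)), ‖e‖ = 1 →
        ∀ (R : ℝ) (f : EuclideanSpace ℝ (Fin 3) → ℂ) (v : EuclideanSpace ℝ (Fin 3) → ℝ≥0∞),
        0 < R → Measurable f → Measurable v → (∀ ξ, R < ‖ξ - c‖ → f ξ = 0) →
        (∀ ξ, eVariationOn (fun s : ℝ => f (ray c e ξ s)) (Ici 1) ≤ v ξ) →
        ∫⁻ z, ‖ext f z‖ₑ ^ q ≤
          ENNReal.ofReal (max C1 C2 * R ^ (3 * q - 8)) * ∫⁻ ξ, v ξ ^ q := by
      intro c e he R f v hR0 hf hvm hR hv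
      rw [ext_eq]
      refine (h2 c e he R f v hR0 hf hvm hR hv).trans (mul_le_mul' ?_ le_rfl)
      apply ENNReal.ofReal_le_ofReal
      exact mul_le_mul_of_nonneg_right (le_max_right _ _) (by positivity)
    refine ⟨max C1 C2, lt_max_of_lt_left hC1, fun _ => key, fun _ => ?_, ?_⟩
    · intro c e he R f hR0 hf hf0 hR hmono
      have hray : ∀ (ξ : EuclideanSpace ℝ (Fin 3)) (s t : ℝ), ray c e (ray c e ξ s) t =
          ray c e ξ (s * t) := by
        intro ξ s t
        have h0 : ray c e ξ s - c = (⟪ξ - c, e⟫ : ℝ) • e +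
            s • ((ξ - c) - (⟪ξ - c, e⟫ : ℝ) • e) := by
          unfold ray foot
          module
        have h3 : (⟪ray c e ξ s - c, e⟫ : ℝ) = ⟪ξ - c, e⟫ := by
          rw [h0]
          generalize ξ - c = η
          simp only [inner_add_left, inner_sub_left, inner_smul_left, real_inner_self_eq_norm_sq, he,
            conj_trivial]
          ring
        have h4 : foot c e (ray c e ξ s) = foot c e ξ := by
          unfold foot at h3 ⊢
          rw [h3]
        have h5 : ray c e (ray c e ξ s) t = foot c e ξ + t • (ray c e ξ s - foot c e ξ) := by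
          change foot c e (ray c e ξ s) + t • (ray c e ξ s - foot c e (ray c e ξ s)) = _
          rw [h4]
        rw [h5]
        unfold ray
        module
      have h6 := key c e he R (fun ξ => (f ξ : ℂ)) (fun ξ => ENNReal.ofReal (f ξ)) hR0
        (Complex.measurable_ofReal.comp hf) hf.ennreal_ofReal
        (fun ξ hξ => by rw [hR ξ hξ]; simp) (by
        intro ξ
        have h1' : ray c e ξ 1 = ξ := by
          unfold ray
          module
        have hv := Pool.Agent.R245.PB.var_ray (w := fun s : ℝ => f (ray c e ξ s))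
          (fun s _ => hf0 _) (fun s t hs hst => by
            have hs0 : 0 < s := by linarith
            have h2 := hmono (ray c e ξ s) (t / s) (by rw [le_div_iff₀ hs0]; linarith)
            rwa [hray, mul_div_cancel₀ _ hs0.ne'] at h2)
        simp only [h1'] at hv
        exact hv)
      refine h6.trans (le_of_eq ?_)
      congr 2
      ext ξ
      rw [← ofReal_norm, Real.norm_eq_abs, abs_of_nonneg (hf0 ξ)]
    · intro c e he R V f hR0 hV hf hR hv
      rw [ext_eq]
      refine (h1 c e he R V f hR0 hV hf hR hv).trans ?_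
      apply ENNReal.ofReal_le_ofReal
      refine mul_le_mul_of_nonneg_right ?_ (by positivity)
      exact mul_le_mul_of_nonneg_right (le_max_left _ _) (by positivity)
  · refine ⟨C1, hC1, fun h => absurd h hq', fun h => absurd h hq', ?_⟩
    intro c e he R V f hR0 hV hf hR hv
    rw [ext_eq]
    exact h1 c e he R V f hR0 hV hf hR hv

end Pool.Agent.Results.MP_b7167f_an.CylinderRays
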