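import Mathlib
import Pool.Agent.R245.PD.D7
set_option autoImplicit false

/-! # Superpositions of pencils with joint angular dependence

The restriction conjecture for the paraboloid in `ℝ^d`, `d = N + 1 ≥ 3`, in the full range
`q > 2d/(d-1)`, for the following class. The `N` frequency coordinates are split (by `e`) into
`m₁ ≥ 0` single coordinates and `n ≥ 1` pairs; in the `j`-th pair polar coordinates `(r_j, θ_j)`
around a point `c j` of the square `[-1,1]²` are used, and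
`f = ∫_S φ(θ,s) ∏_i a_i(θ,s)(ξ_i) ∏_j 1_{r_j < σ_j(θ,s)} dm(s)`.
The functions `φ`, `a_i` and `σ_j` of the joint angle `θ = (θ_1, …, θ_n)` are only measurable, and
so are the `a_i` as functions of the single coordinates. For fixed angles this is the class of
functions of the radii `(r_1, …, r_n)` of bounded variation in the sense of Hardy and Krause, with
values in superpositions of products of bounded measurable functions of the single coordinates
(any bounded measurable function if `m₁ = 1`). -/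

namespace Pool.Agent.Results.MP_b7167f_an.JointPencils

open MeasureTheory Set Complex
open scoped ENNReal NNReal

/-- The extension operator of the truncated paraboloid in `ℝ^(N+1)`. -/
noncomputable def ext {N : ℕ} (f : (Fin N → ℝ) → ℂ) (y : (Fin N → ℝ) × ℝ) : ℂ :=
  ∫ ξ in Icc (-1 : Fin N → ℝ) 1,
    f ξ * cexp (2 * Real.pi * I * ((∑ j, ξ j * y.1 j + (∑ j, ξ j ^ 2) * y.2 : ℝ) : ℂ))

/-- Let `ξ` be a point of the cube whose `j`-th pair of coordinates is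
`c j + r j (cos (θ j), sin (θ j))`, `r j > 0`, `-π < θ j ≤ π`, for every `j`. Then `f ξ` is the
integral over `s` of `φ(θ,s) ∏_i a_i(θ,s)(ξ_i) ∏_j 1_{r_j < σ_j(θ,s)}`, where `ξ_i` is the `i`-th
single coordinate of `ξ`. -/
def Superposition {m₁ n N : ℕ} (e : Fin m₁ ⊕ (Fin n ⊕ Fin n) ≃ Fin N) (c : Fin n → ℝ × ℝ)
    {S : Type} [MeasurableSpace S] (m : Measure S) (φ : (Fin n → ℝ) × S → ℂ)
    (a : Fin m₁ → (Fin n → ℝ) × S → ℝ → ℂ) (σ : Fin n → (Fin n → ℝ) × S → ℝ)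
    (f : (Fin N → ℝ) → ℂ) : Prop :=
  ∀ ξ ∈ Icc (-1 : Fin N → ℝ) 1, ∀ r θ : Fin n → ℝ,
    (∀ j, 0 < r j) → (∀ j, θ j ∈ Ioc (-Real.pi) Real.pi) →
    (∀ j, ξ (e (Sum.inr (Sum.inl j))) = (c j).1 + r j * Real.cos (θ j)) →
    (∀ j, ξ (e (Sum.inr (Sum.inr j))) = (c j).2 + r j * Real.sin (θ j)) →
    f ξ = ∫ s, φ (θ, s) * ((∏ i, a i (θ, s) (ξ (e (Sum.inl i)))) *
      ∏ j, (if r j < σ j (θ, s) then (1 : ℂ) else 0)) ∂m

theorem result (m₁ n N : ℕ) (hn : 1 ≤ n) (hN : N = m₁ + 2 * n) (q : ℝ)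
    (hq : 2 * ((N : ℝ) + 1) / N < q) :
    ∃ C : ℝ≥0, ∀ (e : Fin m₁ ⊕ (Fin n ⊕ Fin n) ≃ Fin N) (c : Fin n → ℝ × ℝ)
      (S : Type) [MeasurableSpace S] (m : Measure S) [SFinite m] (M : ℝ≥0)
      (φ : (Fin n → ℝ) × S → ℂ) (a : Fin m₁ → (Fin n → ℝ) × S → ℝ → ℂ)
      (σ : Fin n → (Fin n → ℝ) × S → ℝ) (f : (Fin N → ℝ) → ℂ),
      (∀ j, c j ∈ Icc ((-1 : ℝ), (-1 : ℝ)) (1, 1)) →
      Measurable φ → (∀ i, Measurable fun w : ((Fin n → ℝ) × S) × ℝ => a i w.1 w.2) →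
      (∀ j, Measurable (σ j)) → Measurable f →
      (∀ i w u, ‖a i w u‖ ≤ 1) → (∀ θ, ∫⁻ s, ‖φ (θ, s)‖ₑ ∂m ≤ M) →
      Superposition e c m φ a σ f →
      ∫⁻ y : (Fin N → ℝ) × ℝ, ‖ext f y‖ₑ ^ q
        ≤ C * ∫⁻ θ in univ.pi fun _ : Fin n => Ioc (-Real.pi) Real.pi,
          (∫⁻ s, ‖φ (θ, s)‖ₑ ∂m) ^ q := by
  obtain ⟨C, hC⟩ := Pool.Agent.R245.PD.mainJ m₁ n N hn hN q hq
  refine ⟨C, ?_⟩
  intro e c S _ m _ M φ a σ f hc hφ ha hσ hf hab hφb hF
  have h1 := hC e S m M φ a σ c f ⟨hφ, ha, hab, hσ, hφb⟩ hc hf (by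
    intro ξ hξ r θ hr hθ hP
    refine hF ξ hξ r θ hr hθ (fun j => ?_) (fun j => ?_)
    · have := congrArg Prod.fst (hP j)
      exact this
    · have := congrArg Prod.snd (hP j)
      exact this)
  refine le_trans (le_of_eq ?_) (h1.trans (le_of_eq ?_))
  · apply lintegral_congr
    intro y
    congr 2
    unfold ext Pool.Agent.TH277.HT.EE
    congr 1
    funext ξ
    exact mul_comm _ _
  · congr 2
    unfold Pool.Agent.R245.PD.mun Pool.Agent.R245.PB.mu Pool.Agent.R245.PB.I0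
    rw [volume_pi, Measure.restrict_pi_pi, Measure.restrict_congr_set Ioo_ae_eq_Ioc]

end Pool.Agent.Results.MP_b7167f_an.JointPencils
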