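import Mathlib
import Pool.Agent.R244.PQ.Prod
set_option autoImplicit false

/-! # Products of rough functions of one coordinate and of planar functions of bounded variation
along rays

The restriction conjecture for the paraboloid in `ℝ^d`, `d = n + 1`, in the full range
`q > 2d/(d-1)`, for the following class. The `n` coordinates are split (by `e`) into `m₁` single
coordinates and `m₂ ≥ 1` pairs, and
`f(ξ) = M(a_1(ξ_(e 1)), …, a_(m₁)(ξ_(e m₁))) ∏_j F_j(ξ_(pair j)) exp(2πi s_j |ξ_(pair j)|²)`,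
where `M` is a multilinear form of norm at most one on a Hilbert space and the `a_m` are
measurable functions of one coordinate with values in its unit ball (for instance the first factor
is the product of `m₁` arbitrary functions of one coordinate, bounded by `1`), the `s_j` are
arbitrary real numbers, and `F_j` has, on the ray of direction `θ` from a point `p_j`, total
variation at most `V_j(θ)`. Nothing is assumed about the dependence of `F_j` on the direction of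
the ray, and `V_j` enters the bound only through its `L^q` norm. -/

namespace Pool.Agent.Results.MP_b7167f_an.PencilProducts

open MeasureTheory Set Complex
open scoped ENNReal NNReal

/-- The extension operator of the truncated paraboloid in `ℝ^(n+1)`. -/
noncomputable def ext {n : ℕ} (f : (Fin n → ℝ) → ℂ) (y : (Fin n → ℝ) × ℝ) : ℂ :=
  ∫ ξ in Icc (-1 : Fin n → ℝ) 1,
    f ξ * cexp (2 * Real.pi * I * ((∑ j, ξ j * y.1 j + (∑ j, ξ j ^ 2) * y.2 : ℝ) : ℂ))

/-- For every `θ ∈ (-π, π]` the total variation over `r > 0` of the function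
`r ↦ (F 1_Q)(p + r (cos θ, sin θ))`, `Q = [-1,1]²`, is at most `V θ`. -/
def RayVariation (F : ℝ × ℝ → ℂ) (p : ℝ × ℝ) (V : ℝ → ℝ≥0∞) : Prop :=
  ∀ θ ∈ Ioc (-Real.pi) Real.pi, eVariationOn (fun r : ℝ =>
    (Icc ((-1 : ℝ), (-1 : ℝ)) (1, 1)).indicator F (p + (r * Real.cos θ, r * Real.sin θ)))
      (Ioi 0) ≤ V θ

theorem result (m₁ m₂ n : ℕ) (hm₂ : 1 ≤ m₂) (hn : n = m₁ + 2 * m₂) (q R : ℝ)
    (hq : 2 * ((n : ℝ) + 1) / n < q) :
    ∃ C : ℝ≥0, ∀ (e : Fin m₁ ⊕ (Fin m₂ ⊕ Fin m₂) ≃ Fin n) (H : Type) [NormedAddCommGroup H]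
      [InnerProductSpace ℂ H] [CompleteSpace H]
      (M : ContinuousMultilinearMap ℂ (fun _ : Fin m₁ => H) ℂ) (a : Fin m₁ → ℝ → H)
      (F : Fin m₂ → ℝ × ℝ → ℂ) (s : Fin m₂ → ℝ) (p : Fin m₂ → ℝ × ℝ) (V : Fin m₂ → ℝ → ℝ≥0∞),
      (∀ x, ‖M x‖ ≤ ∏ m, ‖x m‖) → (∀ m, StronglyMeasurable (a m)) →
      (∀ m, ∀ u ∈ Icc (-1 : ℝ) 1, ‖a m u‖ ≤ 1) →
      (∀ j, Measurable (F j)) → (∀ j, Measurable (V j)) →
      (∀ j, (p j).1 ^ 2 + (p j).2 ^ 2 ≤ R ^ 2) → (∀ j, RayVariation (F j) (p j) (V j)) →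
      ∫⁻ y : (Fin n → ℝ) × ℝ,
        ‖ext (fun ξ => M (fun m => a m (ξ (e (Sum.inl m)))) *
          ∏ j, (F j (ξ (e (Sum.inr (Sum.inl j))), ξ (e (Sum.inr (Sum.inr j)))) *
            cexp (2 * Real.pi * I * ((s j * (ξ (e (Sum.inr (Sum.inl j))) ^ 2 +
              ξ (e (Sum.inr (Sum.inr j))) ^ 2) : ℝ) : ℂ)))) y‖ₑ ^ q
        ≤ C * ∏ j, ∫⁻ θ in Ioc (-Real.pi) Real.pi, V j θ ^ q := by
  obtain ⟨C, hC⟩ := Pool.Agent.R244.PQ.prod_main m₁ m₂ n hm₂ hn q R hq
  refine ⟨C, ?_⟩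
  intro e H _ _ _ M a F s p V hM ham hab hF hV hp hv
  obtain ⟨a', ha'⟩ : ∃ a' : Fin m₁ → ℝ → H, a' = fun m => (Icc (-1 : ℝ) 1).indicator (a m) :=
    ⟨_, rfl⟩
  obtain ⟨G, hG⟩ : ∃ G : Fin m₂ → ℝ × ℝ → ℂ, G = fun j =>
    (Icc ((-1 : ℝ), (-1 : ℝ)) (1, 1)).indicator (F j) := ⟨_, rfl⟩
  have hM1 : ‖M‖ ≤ 1 := by
    apply ContinuousMultilinearMap.opNorm_le_bound zero_le_one
    intro x
    rw [one_mul]
    exact hM x
  have hA : ∀ m, Pool.Agent.TH277.HT.Adm (a' m) := by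
    intro m
    constructor
    · rw [ha']
      exact (ham m).indicator measurableSet_Icc
    · intro u
      rw [ha']
      by_cases h : u ∈ Icc (-1 : ℝ) 1
      · simp only [indicator_of_mem h]
        exact hab m u h
      · simp only [indicator_of_notMem h, norm_zero]
        exact zero_le_one
  have h1 := hC e H M a' hM1 hA G s p V
    (fun j => by rw [hG]; exact (hF j).indicator measurableSet_Icc)
    (fun j x hx => by rw [hG]; exact indicator_of_notMem hx _)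
    (fun j => by
      have h := hp j
      unfold Pool.Agent.R244.PQ.dot
      linarith)
    hV (fun j θ hθ => by rw [hG]; exact hv j θ hθ)
  refine le_trans (le_of_eq ?_) h1
  apply lintegral_congr
  intro y
  congr 2
  unfold ext Pool.Agent.TH277.HT.EE
  apply setIntegral_congr_fun measurableSet_Icc
  intro ξ hξ
  have hc : ∀ m, ξ m ∈ Icc (-1 : ℝ) 1 := fun m => ⟨hξ.1 m, hξ.2 m⟩
  have e1 : (fun m => a' m (ξ (e (Sum.inl m)))) = fun m => a m (ξ (e (Sum.inl m))) := by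
    ext m
    rw [ha']
    simp only [indicator_of_mem (hc _)]
  have e2 : ∀ j, G j (ξ (e (Sum.inr (Sum.inl j))), ξ (e (Sum.inr (Sum.inr j)))) =
      F j (ξ (e (Sum.inr (Sum.inl j))), ξ (e (Sum.inr (Sum.inr j)))) := by
    intro j
    rw [hG]
    exact indicator_of_mem (show (ξ (e (Sum.inr (Sum.inl j))), ξ (e (Sum.inr (Sum.inr j)))) ∈
      Icc ((-1 : ℝ), (-1 : ℝ)) (1, 1) from ⟨⟨(hc _).1, (hc _).1⟩, ⟨(hc _).2, (hc _).2⟩⟩) _
  show _ = _ * (M (fun m => a' m (ξ (e (Sum.inl m)))) *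
    ∏ j, (G j (ξ (e (Sum.inr (Sum.inl j))), ξ (e (Sum.inr (Sum.inr j)))) *
      Pool.Agent.R244.PQ.e (s j * Pool.Agent.R244.PQ.dot
        (ξ (e (Sum.inr (Sum.inl j))), ξ (e (Sum.inr (Sum.inr j))))
        (ξ (e (Sum.inr (Sum.inl j))), ξ (e (Sum.inr (Sum.inr j)))))))
  rw [e1]
  simp_rw [e2]
  rw [mul_comm]
  congr 2
  apply Finset.prod_congr rfl
  intro j _
  congr 1
  unfold Pool.Agent.R244.PQ.e Pool.Agent.R244.PQ.dot
  congr 1
  push_cast
  ring

end Pool.Agent.Results.MP_b7167f_an.PencilProducts
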